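import Pool.Agent.U684.Owings.Minimal

set_option autoImplicit false

namespace Pool.Agent.U684.Owings

open Filter Pool.Agent.U684.RdQ

/-- In a minimal set there is a pattern whose negation is again in the set. -/
lemma meets {c : ℤ → Bool} (hc : SB c) (M : Set (ℤ → Bool × Bool)) (hcl : IsClosed M)
    (hne : M.Nonempty) (hsub : M ⊆ XX c) (hT : Set.MapsTo T M M) :
    ∃ f ∈ M, nb f ∈ M := by
  classical
  have key : ∀ U : Finset ℤ, ∃ g ∈ M, ∃ g' ∈ M, ∀ a ∈ U, g' a = nb g a := by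
    intro U
    by_contra hcon
    push Not at hcon
    obtain ⟨n, E, hblock⟩ := block hc U (fun f => ∃ g ∈ M, ∀ a ∈ U, f a = g a)
      (by
        rintro f f' hff' ⟨g, hg, h⟩
        exact ⟨g, hg, fun a ha => by rw [← hff' a ha, h a ha]⟩)
      (by
        rintro f ⟨g, hg, h⟩ ⟨g', hg', h'⟩
        obtain ⟨a, ha, hne'⟩ := hcon g hg g' hg'
        apply hne'
        rw [← h' a ha]
        unfold nb
        rw [h a ha])
    obtain ⟨g, hg⟩ := hne
    obtain ⟨y, hy, hyg⟩ := XX_window (hsub hg)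
      (((Finset.Icc (0 : ℤ) n) ×ˢ U).image (fun p => p.1 + p.2) ∪
        ((Finset.Icc (0 : ℤ) n) ×ˢ U).image (fun p => 2 * p.1 + p.2)) E
    apply hblock y hy
    intro x hx1 hx2
    obtain ⟨i, rfl⟩ : ∃ i : ℕ, x = y + i := ⟨(x - y).toNat, by omega⟩
    have hmem : (i : ℤ) ∈ Finset.Icc (0 : ℤ) n := Finset.mem_Icc.mpr ⟨by omega, by omega⟩
    have hiter : ∀ k : ℕ, (T^[k] g) ∈ M := by
      intro k
      induction k with
      | zero => exact hg
      | succ k ih => rw [Function.iterate_succ_apply']; exact hT ih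
    refine ⟨T^[i] g, hiter i, ?_⟩
    intro a ha
    rw [T_iter]
    have m1 : (i : ℤ) + a ∈ ((Finset.Icc (0 : ℤ) n) ×ˢ U).image (fun p => p.1 + p.2) ∪
      ((Finset.Icc (0 : ℤ) n) ×ˢ U).image (fun p => 2 * p.1 + p.2) :=
      Finset.mem_union_left _ (Finset.mem_image.mpr
        ⟨((i : ℤ), a), Finset.mem_product.mpr ⟨hmem, ha⟩, rfl⟩)
    have m2 : 2 * (i : ℤ) + a ∈ ((Finset.Icc (0 : ℤ) n) ×ˢ U).image (fun p => p.1 + p.2) ∪
      ((Finset.Icc (0 : ℤ) n) ×ˢ U).image (fun p => 2 * p.1 + p.2) :=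
      Finset.mem_union_right _ (Finset.mem_image.mpr
        ⟨((i : ℤ), a), Finset.mem_product.mpr ⟨hmem, ha⟩, rfl⟩)
    have g1 := congrArg Prod.fst (hyg _ m1)
    have g2 := congrArg Prod.snd (hyg _ m2)
    unfold pat at g1 g2 ⊢
    simp only at g1 g2
    rw [show a + (i : ℤ) = (i : ℤ) + a by ring, show a + 2 * (i : ℤ) = 2 * (i : ℤ) + a by ring,
      ← g1, ← g2]
    simp only [Prod.mk.injEq]
    constructor
    · congr 1; ring
    · congr 1; ring
  choose g hg g' hg' hgg' using (fun k : ℕ => key (Finset.Icc (-(k : ℤ)) k))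
  let f : ℤ → Bool × Bool := fun a => (ulim (fun k => (g k a).1), ulim (fun k => (g k a).2))
  have hf : ∀ a, ∀ᶠ k in (hyperfilter ℕ : Filter ℕ), g k a = f a := by
    intro a
    filter_upwards [ulim_spec (fun k => (g k a).1), ulim_spec (fun k => (g k a).2)] with k h1 h2
    exact Prod.ext h1 h2
  have hwin : ∀ a : ℤ, ∀ᶠ k : ℕ in (hyperfilter ℕ : Filter ℕ),
      a ∈ Finset.Icc (-(k : ℤ)) k := by
    intro a
    filter_upwards [ev_ne a.natAbs] with k hk
    rw [Finset.mem_Icc]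
    constructor <;> omega
  refine ⟨f, ?_, ?_⟩
  · apply mem_of_closed hcl
    intro U
    have h1 : ∀ᶠ k in (hyperfilter ℕ : Filter ℕ), ∀ a ∈ U, g k a = f a := by
      rw [Filter.eventually_all_finset]
      intro a _
      exact hf a
    obtain ⟨k, hk⟩ := h1.exists
    exact ⟨g k, hg k, hk⟩
  · apply mem_of_closed hcl
    intro U
    have h1 : ∀ᶠ k in (hyperfilter ℕ : Filter ℕ), ∀ a ∈ U,
        (g k a = f a ∧ a ∈ Finset.Icc (-(k : ℤ)) k) := by
      rw [Filter.eventually_all_finset]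
      intro a _
      exact (hf a).and (hwin a)
    obtain ⟨k, hk⟩ := h1.exists
    refine ⟨g' k, hg' k, ?_⟩
    intro a ha
    obtain ⟨h2, h3⟩ := hk a ha
    rw [hgg' k a h3]
    unfold nb
    rw [h2]

/-- A limit pattern whose negation lies in its own orbit closure. -/
lemma exists_sym {c : ℤ → Bool} (hc : SB c) :
    ∃ f ∈ XX c, ∀ U : Finset ℤ, ∃ k : ℕ, ∀ a ∈ U,
      (f (a + k)).1 = !(f a).1 ∧ (f (a + 2 * k)).2 = !(f a).2 := by
  classical
  obtain ⟨M, ⟨hcl, hne, hsub, hT⟩, hmin⟩ := exists_minimal c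
  obtain ⟨f0, hf0, hf0'⟩ := meets hc M hcl hne hsub hT
  -- `nb` maps `M` into `M`
  have hnb : ∀ f ∈ M, nb f ∈ M := by
    have := hmin (M ∩ nb ⁻¹' M) (hcl.inter (hcl.preimage nb_cont)) ⟨f0, hf0, hf0'⟩
      Set.inter_subset_left (by
        rintro f ⟨h1, h2⟩
        refine ⟨hT h1, ?_⟩
        rw [Set.mem_preimage] at h2 ⊢
        rw [← T_nb]
        exact hT h2)
    intro f hf
    exact (this hf).2
  refine ⟨f0, hsub hf0, ?_⟩
  -- forward orbit closure
  have horb : M ⊆ closure {g | ∃ k : ℕ, g = T^[k] f0} := by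
    apply hmin _ isClosed_closure
    · exact ⟨f0, subset_closure ⟨0, rfl⟩⟩
    · apply closure_minimal _ hcl
      rintro g ⟨k, rfl⟩
      induction k with
      | zero => exact hf0
      | succ k ih => rw [Function.iterate_succ_apply']; exact hT ih
    · intro g hg
      refine map_mem_closure T_cont hg ?_
      rintro g' ⟨k, rfl⟩
      exact ⟨k + 1, by rw [Function.iterate_succ_apply']⟩
  intro U
  obtain ⟨g, ⟨k, rfl⟩, hg⟩ := window_of_mem_closure (horb (hnb f0 hf0)) U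
  refine ⟨k, ?_⟩
  intro a ha
  have h := hg a ha
  rw [T_iter] at h
  unfold nb at h
  exact ⟨congrArg Prod.fst h, congrArg Prod.snd h⟩

/-- No two-colouring is strongly bad. -/
theorem not_sb (c : ℤ → Bool) : ¬ SB c := by
  classical
  intro hc
  obtain ⟨f, hfX, hsym⟩ := exists_sym hc
  -- the approximating sequence
  have hseq : ∀ n : ℕ, ∃ y : ℤ, (n : ℤ) ≤ y ∧
      ∀ a ∈ Finset.Icc (-(n : ℤ)) n, pat c y a = f a := fun n =>
    XX_window hfX (Finset.Icc (-(n : ℤ)) n) n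
  choose y hy1 hy2 using hseq
  have hwin : ∀ a : ℤ, ∀ᶠ k : ℕ in (hyperfilter ℕ : Filter ℕ),
      a ∈ Finset.Icc (-(k : ℤ)) k := by
    intro a
    filter_upwards [ev_ne a.natAbs] with k hk
    rw [Finset.mem_Icc]
    constructor <;> omega
  have phi_spec : ∀ v : ℤ, ∀ᶠ n in (hyperfilter ℕ : Filter ℕ), c (v + y n) = (f v).1 := by
    intro v
    filter_upwards [hwin v] with n hn
    have := congrArg Prod.fst (hy2 n v hn)
    unfold pat at this
    simp only at this
    rw [← this]; congr 1; ring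
  have psi_spec : ∀ v : ℤ, ∀ᶠ n in (hyperfilter ℕ : Filter ℕ), c (v + 2 * y n) = (f v).2 := by
    intro v
    filter_upwards [hwin v] with n hn
    have := congrArg Prod.snd (hy2 n v hn)
    unfold pat at this
    simp only at this
    rw [← this]; congr 1; ring
  have ev_notin : ∀ (x : ℤ) (V : Finset ℤ), ∀ᶠ n in (hyperfilter ℕ : Filter ℕ),
      x + y n ∉ V := by
    intro x V
    obtain ⟨B, hB⟩ := V.exists_le
    filter_upwards [ev_ne (|x| + |B| + 1).toNat] with n hn
    intro hmem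
    have h1 := hB _ hmem
    have h2 := hy1 n
    have h3 := neg_abs_le x
    have h4 := le_abs_self B
    omega
  -- uniformity for the family `w u a = !(phi (a + u))`
  obtain ⟨V, U, u1, hunif⟩ := unif hc
    (fun (u : ℕ) (a : ℤ) => !((f (a + u)).1)) 0
  -- first symmetry
  obtain ⟨s, hs⟩ := hsym (U.image (fun a => a + u1))
  have hs' : ∀ a ∈ U, (f (a + ((u1 + s : ℕ) : ℤ))).1 = !((f (a + u1)).1) := by
    intro a ha
    have := (hs (a + u1) (Finset.mem_image_of_mem _ ha)).1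
    rw [← this]; congr 2; push_cast; ring
  set g : ℕ := u1 + s with hg
  -- single function
  obtain ⟨V', U', _, hunif'⟩ := unif hc (fun (_ : Unit) (a : ℤ) => !((f (a + g)).1)) ()
  -- second symmetry
  obtain ⟨t, ht⟩ := hsym ((U ∪ V ∪ V').image (fun a => a + (g : ℤ)) ∪ {2 * (g : ℤ)})
  have ht1 : ∀ a ∈ U ∪ V ∪ V', (f (a + ((g + t : ℕ) : ℤ))).1 = !((f (a + g)).1) := by
    intro a ha
    have := (ht (a + g) (Finset.mem_union_left _ (Finset.mem_image_of_mem _ ha))).1
    rw [← this]; congr 2; push_cast; ring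
  have ht2 : (f (2 * (g : ℤ) + 2 * t)).2 = !((f (2 * (g : ℤ))).2) :=
    (ht (2 * (g : ℤ)) (Finset.mem_union_right _ (Finset.mem_singleton_self _))).2
  set u : ℕ := g + t with hu
  have hUV : ∀ a ∈ U, a ∈ U ∪ V ∪ V' := fun a ha =>
    Finset.mem_union_left _ (Finset.mem_union_left _ ha)
  have hVV : ∀ a ∈ V, a ∈ U ∪ V ∪ V' := fun a ha =>
    Finset.mem_union_left _ (Finset.mem_union_right _ ha)
  have hVV' : ∀ a ∈ V', a ∈ U ∪ V ∪ V' := fun a ha => Finset.mem_union_right _ ha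
  have hg0 : (0 : ℤ) ≤ g := Int.natCast_nonneg g
  have hu0 : (0 : ℤ) ≤ u := Int.natCast_nonneg u
  -- (A): phi (g + u + y_n) = psi (2 g)
  have hA : ∀ᶠ n in (hyperfilter ℕ : Filter ℕ),
      (f ((g : ℤ) + u + y n)).1 = (f (2 * (g : ℤ))).2 := by
    have h1 : ∀ᶠ n in (hyperfilter ℕ : Filter ℕ), ∀ v ∈ V,
        c (v + g + y n) = (f (v + g)).1 := by
      rw [Filter.eventually_all_finset]
      intro v _
      exact phi_spec (v + g)
    filter_upwards [h1, ev_notin g V, psi_spec (2 * g)] with n hn1 hn2 hn3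
    have hyn : (0 : ℤ) ≤ y n := le_trans (Int.natCast_nonneg n) (hy1 n)
    have h2 := hunif u (by
      intro a ha
      rw [ht1 a (hUV a ha), hs' a ha, Bool.not_not]) ((g : ℤ) + y n) (by linarith) hn2 (by
      intro v hv
      rw [ht1 v (hVV v hv), Bool.not_not, ← hn1 v hv]
      congr 1; ring)
    have e1 : (g : ℤ) + y n + u = g + u + y n := by ring
    have e2 : 2 * ((g : ℤ) + y n) = 2 * g + 2 * y n := by ring
    rw [e1, e2, hn3] at h2
    revert h2
    cases (f ((g : ℤ) + u + y n)).1 <;> cases (f (2 * (g : ℤ))).2 <;> simp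
  -- (B): phi (g + u + y_n) = ! psi (2 g)
  have hB : ∀ᶠ n in (hyperfilter ℕ : Filter ℕ),
      (f ((g : ℤ) + u + y n)).1 = !((f (2 * (g : ℤ))).2) := by
    have h1 : ∀ᶠ n in (hyperfilter ℕ : Filter ℕ), ∀ v ∈ V',
        c (v + u + y n) = (f (v + u)).1 := by
      rw [Filter.eventually_all_finset]
      intro v _
      exact phi_spec (v + u)
    filter_upwards [h1, ev_notin u V', psi_spec (2 * u)] with n hn1 hn2 hn3
    have hyn : (0 : ℤ) ≤ y n := le_trans (Int.natCast_nonneg n) (hy1 n)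
    have h2 := hunif' () (fun a _ => rfl) ((u : ℤ) + y n) (by linarith) hn2 (by
      intro v hv
      rw [← ht1 v (hVV' v hv), ← hn1 v hv]
      congr 1; ring)
    have e1 : (u : ℤ) + y n + g = g + u + y n := by ring
    have e2 : 2 * ((u : ℤ) + y n) = 2 * u + 2 * y n := by ring
    have e3 : 2 * (u : ℤ) = 2 * g + 2 * t := by rw [hu]; push_cast; ring
    rw [e1, e2, hn3, e3, ht2] at h2
    revert h2
    cases (f ((g : ℤ) + u + y n)).1 <;> cases (f (2 * (g : ℤ))).2 <;> simp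
  obtain ⟨n, hn1, hn2⟩ := (hA.and hB).exists
  rw [hn1] at hn2
  cases h : (f (2 * (g : ℤ))).2 <;> simp [h] at hn2

end Pool.Agent.U684.Owings
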