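import Pool.Agent.U684.RdQ.Basic

set_option autoImplicit false

namespace Pool.Agent.U684.Owings

open Filter Pool.Agent.U684.RdQ

/-- Strong badness of a colouring of the integers (only the large positive part matters). -/
def SB (c : ℤ → Bool) : Prop :=
  ∀ (z : ℤ) (e : Bool) (y : ℕ → ℤ), Function.Injective y → (∀ n, 0 ≤ y n) →
    (∀ n, c (z + 2 * y n) = e) → (∀ m n, m < n → c (z + y m + y n) = e) → False

/-- A bad colouring of `ℕ` gives a strongly bad colouring. -/
lemma sb_of_bad (c0 : ℕ → Bool)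
    (h : ∀ X : Set ℕ, X.Infinite → ∃ x ∈ X, ∃ y ∈ X, ∃ z ∈ X, ∃ w ∈ X, c0 (x + y) ≠ c0 (z + w)) :
    SB (fun a : ℤ => c0 (2 * a).toNat) := by
  intro z e y hy hy0 h1 h2
  -- indices with `0 ≤ z + 2 y n`
  have hfin : {n : ℕ | ¬ (0 ≤ z + 2 * y n)}.Finite := by
    apply Set.Finite.subset (Set.Finite.preimage hy.injOn (Set.finite_Icc 0 (|z|)))
    intro n hn
    simp only [Set.mem_setOf_eq, not_le] at hn
    simp only [Set.mem_preimage, Set.mem_Icc]
    refine ⟨hy0 n, ?_⟩
    have := neg_abs_le z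
    have := hy0 n
    linarith
  have hinf : {n : ℕ | 0 ≤ z + 2 * y n}.Infinite := by
    have := hfin.infinite_compl
    refine this.mono ?_
    intro n hn
    simpa using hn
  obtain ⟨x, ⟨a, ha, rfl⟩, x', ⟨b, hb, rfl⟩, w, ⟨p, hp, rfl⟩, w', ⟨q, hq, rfl⟩, hne⟩ :=
    h ((fun n => (z + 2 * y n).toNat) '' {n : ℕ | 0 ≤ z + 2 * y n}) (by
      apply hinf.image
      intro m hm n hn hmn
      simp only [Set.mem_setOf_eq] at hm hn
      apply hy
      simp only at hmn
      omega)
  have key : ∀ m n : ℕ, 0 ≤ z + 2 * y m → 0 ≤ z + 2 * y n →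
      c0 ((z + 2 * y m).toNat + (z + 2 * y n).toNat) = e := by
    intro m n hm hn
    have e1 : (z + 2 * y m).toNat + (z + 2 * y n).toNat = (2 * (z + y m + y n)).toNat := by
      omega
    rw [e1]
    rcases lt_trichotomy m n with hlt | heq | hgt
    · exact h2 m n hlt
    · subst heq
      have := h1 m
      simp only at this
      rw [← this]; congr 2; ring
    · have := h2 n m hgt
      simp only at this
      rw [← this]; congr 2; ring
  apply hne
  rw [key a b ha hb, key p q hp hq]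

lemma two_lim {c : ℤ → Bool} (hc : SB c) (z : ℤ) (y : ℕ → ℤ) (hy : Function.Injective y)
    (hy0 : ∀ n, 0 ≤ y n)
    (e : Bool) (h : ∀ᶠ n in (hyperfilter ℕ : Filter ℕ), c (z + 2 * y n) = e) :
    ∀ᶠ m in (hyperfilter ℕ : Filter ℕ), ∀ᶠ n in (hyperfilter ℕ : Filter ℕ),
      c (z + y m + y n) = !e := by
  by_contra hcon
  have hcon' : ∀ᶠ m in (hyperfilter ℕ : Filter ℕ), ¬ ∀ᶠ n in (hyperfilter ℕ : Filter ℕ),
      c (z + y m + y n) = !e := Ultrafilter.eventually_not.mpr hcon
  have hcon2 : ∀ᶠ m in (hyperfilter ℕ : Filter ℕ), ∀ᶠ n in (hyperfilter ℕ : Filter ℕ),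
      c (z + y m + y n) = e := by
    filter_upwards [hcon'] with m hm
    have := Ultrafilter.eventually_not.mpr hm
    filter_upwards [this] with n hn
    revert hn
    cases c (z + y m + y n) <;> cases e <;> simp
  obtain ⟨f, hf1, hf2⟩ := exists_seq_of_forall_finset_exists
    (fun m : ℕ => c (z + 2 * y m) = e ∧ ∀ᶠ n in (hyperfilter ℕ : Filter ℕ),
      c (z + y m + y n) = e)
    (fun m n => m < n ∧ c (z + y m + y n) = e)
    (by
      intro s hs
      have h3 : ∀ᶠ n in (hyperfilter ℕ : Filter ℕ), ∀ m ∈ s, (m < n ∧ c (z + y m + y n) = e) := by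
        rw [Filter.eventually_all_finset]
        intro m hm
        exact (ev_ne m).and (hs m hm).2
      obtain ⟨n, hn1, hn2, hn3⟩ := ((h.and hcon2).and h3).exists.imp
        (fun n hn => (⟨hn.1.1, hn.1.2, hn.2⟩ : _ ∧ _ ∧ _))
      exact ⟨n, ⟨hn1, hn2⟩, hn3⟩)
  have hfm : StrictMono f := by
    intro a b hab
    exact (hf2 a b hab).1
  exact hc z e (fun k => y (f k)) (hy.comp hfm.injective) (fun n => hy0 _)
    (fun n => (hf1 n).1) (fun m n hmn => (hf2 m n hmn).2)

/-- Recursion principle: a property of finite sets that always extends. -/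
lemma exists_seq_of_extend (c : ℤ → Bool) (good : Finset ℤ → Prop) (h0 : good ∅)
    (hext : ∀ s, good s → ∃ x, 0 ≤ x ∧ x ∉ s ∧ good (insert x s) ∧
      ∀ v ∈ s, c (x + v) = c (2 * v)) :
    ∃ x : ℕ → ℤ, Function.Injective x ∧ (∀ n, 0 ≤ x n) ∧
      ∀ m n, m < n → c (x n + x m) = c (2 * x m) := by
  classical
  choose! nx hnx using hext
  let S : ℕ → Finset ℤ := fun n => Nat.rec ∅ (fun _ s => insert (nx s) s) n
  have hS : ∀ n, S (n + 1) = insert (nx (S n)) (S n) := fun n => rfl
  have hgood : ∀ n, good (S n) := by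
    intro n
    induction n with
    | zero => exact h0
    | succ k ih => rw [hS]; exact (hnx _ ih).2.2.1
  have hmono : ∀ m n, m ≤ n → S m ⊆ S n := by
    intro m n hmn
    induction hmn with
    | refl => exact Finset.Subset.refl _
    | step _ ih => rw [hS]; exact ih.trans (Finset.subset_insert _ _)
  have hmem : ∀ m n, m < n → nx (S m) ∈ S n := by
    intro m n hmn
    apply hmono (m + 1) n hmn
    rw [hS]; exact Finset.mem_insert_self _ _
  refine ⟨fun n => nx (S n), ?_, ?_, ?_⟩
  · intro a b hab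
    by_contra hne
    rcases lt_or_gt_of_ne hne with h | h
    · have h1 := hmem a b h
      have h2 := (hnx _ (hgood b)).2.1
      apply h2
      simp only at hab
      rw [← hab]; exact h1
    · have h1 := hmem b a h
      have h2 := (hnx _ (hgood a)).2.1
      apply h2
      simp only at hab
      rw [hab]; exact h1
  · intro n
    exact (hnx _ (hgood n)).1
  · intro m n hmn
    exact (hnx _ (hgood n)).2.2.2 _ (hmem m n hmn)

/-- The category-type lemma. -/
lemma unif {ι : Type*} {c : ℤ → Bool} (hc : SB c) (w : ι → ℤ → Bool) (i0 : ι) :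
    ∃ (V U : Finset ℤ) (i1 : ι), ∀ i, (∀ a ∈ U, w i a = w i1 a) →
      ∀ x, 0 ≤ x → x ∉ V → (∀ v ∈ V, c (x + v) = w i v) → w i x = !(c (2 * x)) := by
  classical
  by_contra hcon
  push Not at hcon
  obtain ⟨x, hxi, hx0, hx⟩ := exists_seq_of_extend c
    (fun s => ∃ i, ∀ v ∈ s, w i v = c (2 * v)) ⟨i0, by simp⟩ (by
      rintro s ⟨i, hi⟩
      obtain ⟨j, hj1, x, hx0, hxV, hx1, hx2⟩ := hcon s s i
      refine ⟨x, hx0, hxV, ⟨j, ?_⟩, ?_⟩
      · intro v hv
        rw [Finset.mem_insert] at hv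
        rcases hv with rfl | hv
        · revert hx2
          cases w j v <;> cases c (2 * v) <;> simp
        · rw [hj1 v hv, hi v hv]
      · intro v hv
        rw [hx1 v hv, hj1 v hv, hi v hv])
  -- pigeonhole along the hyperfilter
  set e := ulim (fun n => c (2 * x n)) with he
  have hev : ∀ᶠ n in (hyperfilter ℕ : Filter ℕ), c (2 * x n) = e :=
    ulim_spec (fun n => c (2 * x n))
  have hl := two_lim hc 0 x hxi hx0 e (by simpa using hev)
  obtain ⟨m, hm1, hm2⟩ := (hev.and hl).exists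
  obtain ⟨n, hn1, hn2⟩ := (hm2.and (ev_ne m)).exists
  have h3 := hx m n hn2
  have h4 : c (0 + x m + x n) = c (x n + x m) := by congr 1; ring
  rw [h4, h3, hm1] at hn1
  cases e <;> simp at hn1

end Pool.Agent.U684.Owings
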