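import Pool.Agent.U684.Owings.Basic

set_option autoImplicit false

namespace Pool.Agent.U684.Owings

open Filter Pool.Agent.U684.RdQ

/-- The two-scale pattern of the colouring at `y`. -/
def pat (c : ℤ → Bool) (y : ℤ) : ℤ → Bool × Bool := fun a => (c (y + a), c (2 * y + a))

/-- Pointwise negation. -/
def nb (f : ℤ → Bool × Bool) : ℤ → Bool × Bool := fun a => (!(f a).1, !(f a).2)

lemma nb_nb (f : ℤ → Bool × Bool) : nb (nb f) = f := by
  funext a; simp [nb]

/-- Good displacements. -/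
lemma goodA {c : ℤ → Bool} (hc : SB c) (U : Finset ℤ) (h : ℤ) (hh : 0 ≤ h) :
    ∃ V : Finset ℤ, (∀ v ∈ V, h ≤ v) ∧ ∃ E : ℤ, ∀ y, E ≤ y → ∃ v ∈ V, ∀ a ∈ U,
      c (y + v + a) = !(c (2 * y + a)) ∧ c (2 * y + 2 * v + a) = !(c (4 * y + a)) := by
  classical
  by_contra hcon
  push Not at hcon
  obtain ⟨f, hf1, hf2⟩ := exists_seq_of_forall_finset_exists (fun y : ℤ => h ≤ y)
    (fun v y => v < y ∧ ¬ ∀ a ∈ U,
      (c (y + v + a) = !(c (2 * y + a)) ∧ c (2 * y + 2 * v + a) = !(c (4 * y + a))))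
    (by
      intro s hs
      obtain ⟨M, hM⟩ := s.exists_le
      obtain ⟨y, hy1, hy2⟩ := hcon s hs (max h (M + 1))
      refine ⟨y, le_trans (le_max_left _ _) hy1, fun v hv => ⟨?_, ?_⟩⟩
      · have := hM v hv
        have := le_trans (le_max_right h (M + 1)) hy1
        linarith
      · intro hall
        obtain ⟨a, ha, h2⟩ := hy2 v hv
        exact h2 (hall a ha).1 (hall a ha).2)
  have hfm : StrictMono f := fun a b hab => (hf2 a b hab).1
  have hfi : Function.Injective f := hfm.injective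
  have hf0 : ∀ n, 0 ≤ f n := fun n => le_trans hh (hf1 n)
  have hfi2 : Function.Injective (fun n => 2 * f n) := by
    intro a b hab
    apply hfi
    simp only at hab
    linarith
  have hf02 : ∀ n, 0 ≤ (fun n => 2 * f n) n := fun n => by
    have := hf0 n
    simp only
    linarith
  have h1 : ∀ a ∈ U, ∀ᶠ m in (hyperfilter ℕ : Filter ℕ), ∀ᶠ n in (hyperfilter ℕ : Filter ℕ),
      c (a + f m + f n) = !(ulim (fun n => c (a + 2 * f n))) := by
    intro a _
    exact two_lim hc a f hfi hf0 _ (ulim_spec (fun n => c (a + 2 * f n)))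
  have h2 : ∀ a ∈ U, ∀ᶠ m in (hyperfilter ℕ : Filter ℕ), ∀ᶠ n in (hyperfilter ℕ : Filter ℕ),
      c (a + 2 * f m + 2 * f n) = !(ulim (fun n => c (a + 2 * (2 * f n)))) := by
    intro a _
    exact two_lim hc a (fun n => 2 * f n) hfi2 hf02 _
      (ulim_spec (fun n => c (a + 2 * (2 * f n))))
  rw [← Filter.eventually_all_finset] at h1 h2
  obtain ⟨m, hm1, hm2⟩ := (h1.and h2).exists
  rw [← Filter.eventually_all_finset] at hm1 hm2
  have h3 : ∀ᶠ n in (hyperfilter ℕ : Filter ℕ), ∀ a ∈ U,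
      c (a + 2 * f n) = ulim (fun n => c (a + 2 * f n)) := by
    rw [Filter.eventually_all_finset]
    intro a _
    exact ulim_spec (fun n => c (a + 2 * f n))
  have h4 : ∀ᶠ n in (hyperfilter ℕ : Filter ℕ), ∀ a ∈ U,
      c (a + 2 * (2 * f n)) = ulim (fun n => c (a + 2 * (2 * f n))) := by
    rw [Filter.eventually_all_finset]
    intro a _
    exact ulim_spec (fun n => c (a + 2 * (2 * f n)))
  obtain ⟨n, ⟨⟨⟨⟨hn1, hn2⟩, hn3⟩, hn4⟩, hn5⟩⟩ :=
    ((((hm1.and hm2).and h3).and h4).and (ev_ne m)).exists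
  apply (hf2 m n hn5).2
  intro a ha
  constructor
  · have e1 : f n + f m + a = a + f m + f n := by ring
    have e2 : 2 * f n + a = a + 2 * f n := by ring
    rw [e1, e2, hn1 a ha, hn3 a ha]
  · have e1 : 2 * f n + 2 * f m + a = a + 2 * f m + 2 * f n := by ring
    have e2 : 4 * f n + a = a + 2 * (2 * f n) := by ring
    rw [e1, e2, hn2 a ha, hn4 a ha]

/-- Passing from `P` to a point near `P / 2` with the opposite pattern. -/
lemma down {c : ℤ → Bool} (hc : SB c) (U : Finset ℤ) (h : ℤ) (hh : 0 ≤ h) :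
    ∃ W E : ℤ, ∀ P, E ≤ P → ∃ P', 2 * h ≤ 2 * P' - P ∧ 2 * P' - P ≤ 2 * W ∧
      ∀ a ∈ U, pat c P' a = nb (pat c P) a := by
  classical
  obtain ⟨V, hV, E, hE⟩ := goodA hc
    (U ∪ U.image (fun a => a + 1) ∪ U.image (fun a => a + 2)) h hh
  obtain ⟨M, hM⟩ := V.exists_le
  refine ⟨M + 1, 2 * E + 2, ?_⟩
  intro P hP
  obtain ⟨d, y, hd, hy⟩ : ∃ d y : ℤ, (d = 0 ∨ d = 1) ∧ P = 2 * y + d := by
    rcases Int.even_or_odd P with ⟨r, hr⟩ | ⟨r, hr⟩
    · exact ⟨0, r, Or.inl rfl, by linarith⟩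
    · exact ⟨1, r, Or.inr rfl, hr⟩
  have hyE : E ≤ y := by rcases hd with rfl | rfl <;> linarith
  obtain ⟨v, hv, hgood⟩ := hE y hyE
  have hv1 := hV v hv
  have hv2 := hM v hv
  refine ⟨y + v + d, ?_, ?_, ?_⟩
  · rw [hy]; rcases hd with rfl | rfl <;> linarith
  · rw [hy]; rcases hd with rfl | rfl <;> linarith
  · intro a ha
    have u0 : a ∈ U ∪ U.image (fun a => a + 1) ∪ U.image (fun a => a + 2) :=
      Finset.mem_union_left _ (Finset.mem_union_left _ ha)
    have u1 : a + 1 ∈ U ∪ U.image (fun a => a + 1) ∪ U.image (fun a => a + 2) :=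
      Finset.mem_union_left _ (Finset.mem_union_right _ (Finset.mem_image_of_mem _ ha))
    have u2 : a + 2 ∈ U ∪ U.image (fun a => a + 1) ∪ U.image (fun a => a + 2) :=
      Finset.mem_union_right _ (Finset.mem_image_of_mem _ ha)
    have had : a + d ∈ U ∪ U.image (fun a => a + 1) ∪ U.image (fun a => a + 2) ∧
        a + 2 * d ∈ U ∪ U.image (fun a => a + 1) ∪ U.image (fun a => a + 2) := by
      rcases hd with rfl | rfl
      · simpa using u0
      · exact ⟨u1, by simpa using u2⟩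
    have g1 := (hgood _ had.1).1
    have g2 := (hgood _ had.2).2
    unfold pat nb
    simp only [Prod.mk.injEq]
    constructor
    · have e1 : y + v + d + a = y + v + (a + d) := by ring
      have e2 : P + a = 2 * y + (a + d) := by rw [hy]; ring
      rw [e1, e2, g1]
    · have e1 : 2 * (y + v + d) + a = 2 * y + 2 * v + (a + 2 * d) := by ring
      have e2 : 2 * P + a = 4 * y + (a + 2 * d) := by rw [hy]; ring
      rw [e1, e2, g2]

/-- No large block of length `n` has all its `U`-patterns in a language `L` disjoint from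
its negation. -/
lemma block {c : ℤ → Bool} (hc : SB c) (U : Finset ℤ) (L : (ℤ → Bool × Bool) → Prop)
    (hL : ∀ f g, (∀ a ∈ U, f a = g a) → L f → L g) (hdis : ∀ f, L f → ¬ L (nb f)) :
    ∃ n E : ℤ, ∀ s, E ≤ s → ¬ (∀ y, s ≤ y → y ≤ s + n → L (pat c y)) := by
  classical
  obtain ⟨D0, E0, hD0⟩ := down hc U 0 le_rfl
  set D : ℤ := max D0 0 with hD
  have hDnn : 0 ≤ D := le_max_right _ _
  have hDD : D0 ≤ D := le_max_left _ _
  set n : ℤ := 2 * D + 1 with hn
  obtain ⟨W0, E1, hW0⟩ := down hc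
    (((Finset.Icc (0 : ℤ) n) ×ˢ U).image (fun p => p.1 + p.2) ∪
      ((Finset.Icc (0 : ℤ) n) ×ˢ U).image (fun p => 2 * p.1 + p.2)) 1 (by norm_num)
  set W : ℤ := max W0 1 with hW
  have hW1 : 1 ≤ W := le_max_right _ _
  have hWW : W0 ≤ W := le_max_left _ _
  refine ⟨n, max (max E0 E1) 1, ?_⟩
  intro s hs hpure
  have hsE0 : E0 ≤ s := le_trans (le_trans (le_max_left _ _) (le_max_left _ _)) hs
  have hsE1 : E1 ≤ s := le_trans (le_trans (le_max_right _ _) (le_max_left _ _)) hs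
  have hs1 : 1 ≤ s := le_trans (le_max_right _ _) hs
  -- transfer of membership
  have tr : ∀ f g, (∀ a ∈ U, f a = nb g a) → L f → L (nb g) := fun f g hfg hf => hL f _ hfg hf
  have tr' : ∀ f g, (∀ a ∈ U, f a = nb g a) → L (nb f) → L g := by
    intro f g hfg hf
    apply hL (nb f) g _ hf
    intro a ha
    have := hfg a ha
    unfold nb at this ⊢
    rw [this]; simp
  -- scaling up
  have up0 : ∀ t l : ℤ, E0 ≤ t → 0 ≤ t → (∀ y, t ≤ y → y ≤ t + l → L (pat c y)) →
      (∀ y, 2 * t ≤ y → y ≤ 2 * t + (2 * l - 2 * D) → L (nb (pat c y))) := by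
    intro t l ht ht0 hp y hy1 hy2
    obtain ⟨P', h1, h2, h3⟩ := hD0 y (by linarith)
    exact tr _ _ h3 (hp P' (by linarith) (by linarith))
  have up1 : ∀ t l : ℤ, E0 ≤ t → 0 ≤ t → (∀ y, t ≤ y → y ≤ t + l → L (nb (pat c y))) →
      (∀ y, 2 * t ≤ y → y ≤ 2 * t + (2 * l - 2 * D) → L (pat c y)) := by
    intro t l ht ht0 hp y hy1 hy2
    obtain ⟨P', h1, h2, h3⟩ := hD0 y (by linarith)
    exact tr' _ _ h3 (hp P' (by linarith) (by linarith))
  have hpow : ∀ j : ℕ, (1 : ℤ) ≤ 4 ^ j := fun j => one_le_pow₀ (by norm_num)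
  have up2 : ∀ j : ℕ, ∀ y, 4 ^ j * s ≤ y → y ≤ 4 ^ j * s + (4 ^ j + 2 * D) → L (pat c y) := by
    intro j
    induction j with
    | zero =>
      intro y hy1 hy2
      apply hpure y (by simpa using hy1)
      have : y ≤ s + (1 + 2 * D) := by simpa using hy2
      rw [hn]; linarith
    | succ j ih =>
      have hj := hpow j
      have hjs : s ≤ 4 ^ j * s := le_mul_of_one_le_left (by linarith) hj
      have a1 := up0 (4 ^ j * s) (4 ^ j + 2 * D) (by linarith) (by linarith) ih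
      have a2 := up1 (2 * (4 ^ j * s)) (2 * (4 ^ j + 2 * D) - 2 * D) (by linarith) (by linarith) a1
      intro y hy1 hy2
      apply a2 y
      · have : (4 : ℤ) ^ (j + 1) * s = 2 * (2 * (4 ^ j * s)) := by rw [pow_succ]; ring
        linarith
      · have e1 : (4 : ℤ) ^ (j + 1) * s = 2 * (2 * (4 ^ j * s)) := by rw [pow_succ]; ring
        have e2 : (4 : ℤ) ^ (j + 1) = 4 * 4 ^ j := by rw [pow_succ]; ring
        rw [e1, e2] at hy2
        linarith
  -- recurrence
  have rec1 : ∀ t : ℤ, s ≤ t → (∀ y, t ≤ y → y ≤ t + n → L (pat c y)) →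
      ∃ t', t + 1 ≤ t' ∧ t' ≤ t + W ∧ (∀ y, t' ≤ y → y ≤ t' + n → L (pat c y)) := by
    intro t ht hp
    have a1 := up0 t n (by linarith) (by linarith) hp
    obtain ⟨P', h1, h2, h3⟩ := hW0 (2 * t) (by linarith)
    refine ⟨P', by linarith, by linarith, ?_⟩
    intro y hy1 hy2
    -- y = P' + i
    obtain ⟨i, hi⟩ : ∃ i, y = P' + i := ⟨y - P', by ring⟩
    have hi0 : 0 ≤ i := by linarith
    have hin : i ≤ n := by linarith
    have hmem : i ∈ Finset.Icc (0 : ℤ) n := Finset.mem_Icc.mpr ⟨hi0, hin⟩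
    have hA1 : L (nb (pat c (2 * t + i))) := by
      apply a1 _ (by linarith)
      rw [hn] at hin ⊢; linarith
    apply hL (nb (pat c (2 * t + i))) (pat c y) _ hA1
    intro a ha
    have m1 : i + a ∈ ((Finset.Icc (0 : ℤ) n) ×ˢ U).image (fun p => p.1 + p.2) ∪
      ((Finset.Icc (0 : ℤ) n) ×ˢ U).image (fun p => 2 * p.1 + p.2) :=
      Finset.mem_union_left _ (Finset.mem_image.mpr
        ⟨(i, a), Finset.mem_product.mpr ⟨hmem, ha⟩, rfl⟩)
    have m2 : 2 * i + a ∈ ((Finset.Icc (0 : ℤ) n) ×ˢ U).image (fun p => p.1 + p.2) ∪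
      ((Finset.Icc (0 : ℤ) n) ×ˢ U).image (fun p => 2 * p.1 + p.2) :=
      Finset.mem_union_right _ (Finset.mem_image.mpr
        ⟨(i, a), Finset.mem_product.mpr ⟨hmem, ha⟩, rfl⟩)
    have g1 := congrArg Prod.fst (h3 _ m1)
    have g2 := congrArg Prod.snd (h3 _ m2)
    unfold pat nb at g1 g2 ⊢
    simp only at g1 g2
    simp only [Prod.mk.injEq]
    rw [hi]
    constructor
    · have e1 : P' + i + a = P' + (i + a) := by ring
      have e2 : 2 * t + i + a = 2 * t + (i + a) := by ring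
      rw [e1, e2, g1]
    · have e1 : 2 * (P' + i) + a = 2 * P' + (2 * i + a) := by ring
      have e2 : 2 * (2 * t + i) + a = 2 * (2 * t) + (2 * i + a) := by ring
      rw [e1, e2, g2]
  have rec2 : ∀ k : ℕ, ∃ t', s + k ≤ t' ∧ t' ≤ s + k + W ∧
      (∀ y, t' ≤ y → y ≤ t' + n → L (pat c y)) := by
    intro k
    induction k with
    | zero => exact ⟨s, by simp, by simp; linarith, hpure⟩
    | succ k ih =>
      obtain ⟨t, ht1, ht2, ht3⟩ := ih
      rcases eq_or_lt_of_le ht1 with heq | hlt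
      · obtain ⟨t', h1, h2, h3⟩ := rec1 t (by
          have : (0 : ℤ) ≤ k := Int.natCast_nonneg k
          linarith) ht3
        refine ⟨t', ?_, ?_, h3⟩
        · push_cast; linarith
        · push_cast; linarith
      · refine ⟨t, ?_, ?_, ht3⟩
        · push_cast; omega
        · push_cast; linarith
  -- final contradiction
  obtain ⟨j, hj⟩ : ∃ j : ℕ, W ≤ 4 ^ j := by
    obtain ⟨j, hj⟩ := pow_unbounded_of_one_lt W (by norm_num : (1 : ℤ) < 4)
    exact ⟨j, hj.le⟩
  have hjs : s ≤ 4 ^ j * s := le_mul_of_one_le_left (by linarith) (hpow j)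
  have a1 := up0 (4 ^ j * s) (4 ^ j + 2 * D) (by linarith) (by linarith) (up2 j)
  obtain ⟨t, ht1, ht2, ht3⟩ := rec2 (2 * (4 ^ j * s) - s).toNat
  have hcast : (((2 * (4 ^ j * s) - s).toNat : ℕ) : ℤ) = 2 * (4 ^ j * s) - s :=
    Int.toNat_of_nonneg (by linarith)
  rw [hcast] at ht1 ht2
  have b1 : L (pat c t) := ht3 t le_rfl (by rw [hn]; linarith)
  have b2 : L (nb (pat c t)) := a1 t (by linarith) (by linarith)
  exact hdis _ b1 b2

end Pool.Agent.U684.Owings
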