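import Pool.Agent.U684.Owings.Down

set_option autoImplicit false

namespace Pool.Agent.U684.Owings

open Filter Pool.Agent.U684.RdQ

/-- The shift on patterns. -/
def T (f : ℤ → Bool × Bool) : ℤ → Bool × Bool := fun a => ((f (a + 1)).1, (f (a + 2)).2)

lemma T_pat (c : ℤ → Bool) (y : ℤ) : T (pat c y) = pat c (y + 1) := by
  funext a
  unfold T pat
  simp only [Prod.mk.injEq]
  constructor
  · congr 1; ring
  · congr 1; ring

lemma T_nb (f : ℤ → Bool × Bool) : T (nb f) = nb (T f) := by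
  funext a; simp [T, nb]

lemma T_iter (f : ℤ → Bool × Bool) (k : ℕ) (a : ℤ) :
    (T^[k] f) a = ((f (a + k)).1, (f (a + 2 * k)).2) := by
  induction k generalizing a with
  | zero => simp
  | succ k ih =>
    rw [Function.iterate_succ_apply']
    change (((T^[k] f) (a + 1)).1, ((T^[k] f) (a + 2)).2) = _
    rw [ih, ih]
    simp only [Prod.mk.injEq]
    constructor
    · congr 2; push_cast; ring
    · congr 2; push_cast; ring

lemma T_cont : Continuous T := by
  unfold T
  refine continuous_pi (fun a => ?_)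
  exact ((continuous_fst.comp (continuous_apply (a + 1)))).prodMk
    (continuous_snd.comp (continuous_apply (a + 2)))

lemma nb_cont : Continuous nb := by
  unfold nb
  refine continuous_pi (fun a => ?_)
  exact (continuous_of_discreteTopology (f := fun p : Bool × Bool => (!p.1, !p.2))).comp
    (continuous_apply a)

/-- Combinatorial criterion for membership in a closed set. -/
lemma mem_of_closed {K : Set (ℤ → Bool × Bool)} (hK : IsClosed K) (f : ℤ → Bool × Bool)
    (h : ∀ U : Finset ℤ, ∃ g ∈ K, ∀ a ∈ U, g a = f a) : f ∈ K := by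
  rw [← hK.closure_eq, mem_closure_iff]
  intro o ho hf
  obtain ⟨I, u, hu, hsub⟩ := isOpen_pi_iff.mp ho f hf
  obtain ⟨g, hg, hgf⟩ := h I
  refine ⟨g, hsub ?_, hg⟩
  intro a ha
  rw [hgf a ha]
  exact (hu a ha).2

lemma cyl_open (f : ℤ → Bool × Bool) (U : Finset ℤ) :
    IsOpen {g : ℤ → Bool × Bool | ∀ a ∈ U, g a = f a} := by
  have : {g : ℤ → Bool × Bool | ∀ a ∈ U, g a = f a} =
      ⋂ a ∈ U, (fun g : ℤ → Bool × Bool => g a) ⁻¹' {f a} := by
    ext g; simp
  rw [this]
  apply isOpen_biInter_finset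
  intro a _
  exact (isOpen_discrete _).preimage (continuous_apply a)

lemma window_of_mem_closure {S : Set (ℤ → Bool × Bool)} {f : ℤ → Bool × Bool}
    (hf : f ∈ closure S) (U : Finset ℤ) : ∃ g ∈ S, ∀ a ∈ U, g a = f a := by
  rw [mem_closure_iff] at hf
  obtain ⟨g, hg1, hg2⟩ := hf _ (cyl_open f U) (by intro a _; rfl)
  exact ⟨g, hg2, hg1⟩

/-- Limit patterns. -/
def XX (c : ℤ → Bool) : Set (ℤ → Bool × Bool) :=
  ⋂ E : ℕ, closure {f | ∃ y : ℤ, (E : ℤ) ≤ y ∧ f = pat c y}

lemma XX_window {c : ℤ → Bool} {f : ℤ → Bool × Bool} (hf : f ∈ XX c) (U : Finset ℤ) (E : ℤ) :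
    ∃ y, E ≤ y ∧ ∀ a ∈ U, pat c y a = f a := by
  have h1 := Set.mem_iInter.mp hf E.toNat
  obtain ⟨g, ⟨y, hy, rfl⟩, hg⟩ := window_of_mem_closure h1 U
  refine ⟨y, ?_, hg⟩
  have := Int.self_le_toNat E
  linarith

lemma XX_closed (c : ℤ → Bool) : IsClosed (XX c) :=
  isClosed_iInter (fun _ => isClosed_closure)

lemma XX_nonempty (c : ℤ → Bool) : (XX c).Nonempty := by
  apply IsCompact.nonempty_iInter_of_sequence_nonempty_isCompact_isClosed
  · intro i
    apply closure_mono
    rintro f ⟨y, hy, rfl⟩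
    refine ⟨y, ?_, rfl⟩
    push_cast at hy
    linarith
  · intro i
    exact ⟨pat c i, subset_closure ⟨i, le_rfl, rfl⟩⟩
  · exact isClosed_closure.isCompact
  · intro i
    exact isClosed_closure

lemma XX_maps (c : ℤ → Bool) : Set.MapsTo T (XX c) (XX c) := by
  intro f hf
  rw [XX, Set.mem_iInter] at hf ⊢
  intro E
  refine map_mem_closure T_cont (hf E) ?_
  rintro g ⟨y, hy, rfl⟩
  exact ⟨y + 1, by linarith, T_pat c y⟩

/-- Existence of a minimal closed invariant set of limit patterns. -/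
lemma exists_minimal (c : ℤ → Bool) :
    ∃ M : Set (ℤ → Bool × Bool), (IsClosed M ∧ M.Nonempty ∧ M ⊆ XX c ∧ Set.MapsTo T M M) ∧
      ∀ K : Set (ℤ → Bool × Bool), IsClosed K → K.Nonempty → K ⊆ M → Set.MapsTo T K K →
        M ⊆ K := by
  obtain ⟨M, hM1, hM2⟩ := zorn_superset_nonempty
    {K : Set (ℤ → Bool × Bool) | IsClosed K ∧ K.Nonempty ∧ K ⊆ XX c ∧ Set.MapsTo T K K}
    (by
      intro C hC hchain hne
      refine ⟨⋂₀ C, ⟨?_, ?_, ?_, ?_⟩, ?_⟩
      · exact isClosed_sInter (fun K hK => (hC hK).1)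
      · have : Nonempty C := hne.to_subtype
        apply IsCompact.nonempty_sInter_of_directed_nonempty_isCompact_isClosed
        · intro K hK K' hK'
          rcases hchain.total hK hK' with h | h
          · exact ⟨K, hK, Set.Subset.refl _, h⟩
          · exact ⟨K', hK', h, Set.Subset.refl _⟩
        · exact fun K hK => (hC hK).2.1
        · exact fun K hK => (hC hK).1.isCompact
        · exact fun K hK => (hC hK).1
      · obtain ⟨K, hK⟩ := hne
        exact (Set.sInter_subset_of_mem hK).trans (hC hK).2.2.1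
      · intro f hf
        rw [Set.mem_sInter] at hf ⊢
        intro K hK
        exact (hC hK).2.2.2 (hf K hK)
      · intro K hK
        exact Set.sInter_subset_of_mem hK)
    (XX c) ⟨XX_closed c, XX_nonempty c, Set.Subset.refl _, XX_maps c⟩
  refine ⟨M, hM2.prop, ?_⟩
  intro K h1 h2 h3 h4
  exact hM2.le_of_le ⟨h1, h2, h3.trans hM2.prop.2.2.1, h4⟩ h3

end Pool.Agent.U684.Owings
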